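import Mathlib
import Pool.Agent.TH885.NW.Final
import Pool.Agent.TH885.NW.Exp2
import Pool.Agent.TH885.NW.Prop
import Pool.Agent.H852.NB.Count

set_option autoImplicit false

/-!
# Non-speciality in ALL degrees for most near-uniform vectors, every number `n ≥ 10` of points

A vector of `n` multiplicities is near-uniform if it takes two consecutive values `m`, `m + 1`;
up to the order it is determined by its sum `W`. Call `W` good if all near-uniform systems with
positive multiplicities of sum `W` at `n` general points are non-special, in every degree.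
* Let `n ≥ 10` not be a perfect square and
  `bad n = (min (√n - 3) (2 / 3 + 9 / (4 √n)) + min (√n - 3) (2 / 3 + 1 / (4 √n))) / 2 < 1`. All
  `W` outside a set of upper density at most `bad n` are good.
* Let `ε > 0`. For all `n ≥ n0(ε)` and every interval of at least `√n` integers, all but the
  proportion `ε` of the integers `W` of the interval are good.
-/

namespace Pool.Agent.Results.MP_d3128a_ag.AllNumbersNearUniform

open MvPolynomial

/-- Forms of degree `d` vanishing to order at least `w i` at the points `(P i 0 : P i 1 : 1)`. -/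
noncomputable def forms {n : ℕ} (P : Fin n → Fin 2 → ℂ) (d : ℕ) (w : Fin n → ℕ) :
    Submodule ℂ (MvPolynomial (Fin 3) ℂ) :=
  homogeneousSubmodule (Fin 3) ℂ d ⊓
    Submodule.restrictScalars ℂ
      (⨅ i : Fin n, (Ideal.span {X 0 - C (P i 0) * X 2, X 1 - C (P i 1) * X 2} :
        Ideal (MvPolynomial (Fin 3) ℂ)) ^ (w i))

/-- For general points (one nonempty open set for all degrees) the systems of curves with the
multiplicities `w` are non-special in every degree. -/
def NonSpecial {n : ℕ} (w : Fin n → ℕ) : Prop :=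
  ∃ F : MvPolynomial (Fin n × Fin 2) ℂ, F ≠ 0 ∧ ∀ P : Fin n → Fin 2 → ℂ,
    MvPolynomial.eval (fun ij : Fin n × Fin 2 => P ij.1 ij.2) F ≠ 0 →
    ∀ d : ℕ, (Module.finrank ℂ ↥(forms P d w) : ℤ) - 1 =
      max (((d + 2).choose 2 : ℤ) - 1 - ∑ i, ((w i + 1).choose 2 : ℤ)) (-1)

/-- All near-uniform vectors of sum `W` with positive multiplicities are non-special in every
degree. -/
def Good (n W : ℕ) : Prop :=
  ∀ m : ℕ, 0 < m → ∀ w : Fin n → ℕ, (∀ i, w i = m ∨ w i = m + 1) → ∑ i, w i = W → NonSpecial w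

/-- The bound for the proportion of the sums which are not good. -/
noncomputable def bad (n : ℕ) : ℝ :=
  (min (Real.sqrt n - 3) (2 / 3 + 9 / (4 * Real.sqrt n)) +
    min (Real.sqrt n - 3) (2 / 3 + 1 / (4 * Real.sqrt n))) / 2

theorem nonSpecial_of {n : ℕ} {w : Fin n → ℕ} (h : ∃ F : MvPolynomial (Fin n × Fin 2) ℚ, F ≠ 0 ∧
    ∀ P : Fin n → Fin 2 → ℂ,
      MvPolynomial.aeval (fun ij : Fin n × Fin 2 => P ij.1 ij.2) F ≠ 0 →
      ∀ d : ℕ, Pool.Agent.H932R3.ExpDim ℂ w P d) : NonSpecial w := by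
  obtain ⟨F, hF, hF'⟩ := h
  refine ⟨F.map (algebraMap ℚ ℂ), Pool.Agent.H932R3.map_ne_zero_of hF, fun P hP d => ?_⟩
  rw [MvPolynomial.eval_map] at hP
  have h1 := hF' P hP d
  unfold Pool.Agent.H932R3.ExpDim at h1
  unfold forms
  rw [h1]
  have e : ∑ i, ((w i + 1).choose 2 : ℤ) = ((∑ i, (w i + 1).choose 2 : ℕ) : ℤ) := by
    push_cast
    rfl
  rw [e]
  omega

theorem sum_eq {n W : ℕ} {w : Fin n → ℕ} (h : ∑ i, w i = W) : (∑ i, (w i : ℝ)) = (W : ℝ) := by
  rw [← h]
  push_cast
  rfl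

theorem result :
    (∀ n : ℕ, 10 ≤ n → ¬ IsSquare n → ∀ δ : ℝ, 0 < δ → ∃ M0 : ℝ, ∀ M : ℕ, M0 ≤ M →
      (Set.ncard {W : ℕ | W < M ∧ ¬ Good n W} : ℝ) ≤ (bad n + δ) * M) ∧
    (∀ n : ℕ, 10 ≤ n → bad n < 1) ∧
    (∀ ε : ℝ, 0 < ε → ∃ n0 : ℕ, ∀ n : ℕ, n0 ≤ n → ∀ A L : ℕ, Real.sqrt n ≤ L →
      (Set.ncard {W : ℕ | A ≤ W ∧ W < A + L ∧ ¬ Good n W} : ℝ) ≤ ε * L) := by
  classical
  refine ⟨fun n hn hsq δ hδ => ?_, fun n hn => ?_, fun ε hε => ?_⟩
  · obtain ⟨g1, g2, g3⟩ := Pool.Agent.TH885.NW.win_len hn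
    obtain ⟨s, hs⟩ : ∃ s, s = Real.sqrt n := ⟨_, rfl⟩
    have hirr : Irrational (s⁻¹) := by
      rw [hs]
      exact (irrational_sqrt_natCast_iff.2 hsq).inv
    obtain ⟨M0, hM0⟩ := Pool.Agent.TH885.NW.count_sharp hirr ((s - 3) / 2)
      (Pool.Agent.TH885.NW.loW n / 2) (Pool.Agent.TH885.NW.upW n / 2) (by linarith) hδ
    refine ⟨M0, fun M hM => ?_⟩
    have hset : {W : ℕ | W < M ∧ ¬ Good n W} =
        ↑((Finset.range M).filter fun W => ¬ Good n W) := by
      ext W
      simp only [Set.mem_ofPred_eq, Finset.coe_filter, Finset.mem_range]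
    rw [hset, Set.ncard_coe_finset]
    have h1 := hM0 M hM ((Finset.range M).filter fun W => ¬ Good n W)
      (fun W hW => Finset.mem_range.1 (Finset.mem_filter.1 hW).1) (fun W hW => by
        have hbad := (Finset.mem_filter.1 hW).2
        by_contra hcon
        push Not at hcon
        apply hbad
        intro m hm w hw hsum
        obtain ⟨F, hF, hF'⟩ := Pool.Agent.TH885.NW.exp_near2 (L := ℂ) hn hm hw
        refine nonSpecial_of ⟨F, hF, fun P hP d => hF' P hP d ?_⟩
        rw [sum_eq hsum, ← hs]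
        have e1 : 2 * (W : ℝ) / s = 2 * (s⁻¹ * W) := by rw [div_eq_mul_inv]; ring
        rw [e1]
        have h2 := hcon (d : ℤ)
        push_cast at h2
        rcases le_or_gt (-Pool.Agent.TH885.NW.loW n) (2 * (d : ℝ) + 3 - (s + 2 * (s⁻¹ * W)))
          with h4 | h4
        · left
          have := h2 (by linarith)
          linarith
        · exact Or.inr h4)
    have e : bad n + δ = Pool.Agent.TH885.NW.loW n / 2 + Pool.Agent.TH885.NW.upW n / 2 + δ := by
      unfold bad Pool.Agent.TH885.NW.loW Pool.Agent.TH885.NW.upW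
      ring
    rw [e]
    exact h1
  · obtain ⟨g1, g2, g3⟩ := Pool.Agent.TH885.NW.win_len hn
    unfold Pool.Agent.TH885.NW.loW Pool.Agent.TH885.NW.upW at g3
    unfold bad
    linarith
  · obtain ⟨η, hη⟩ : ∃ η, η = min (ε / 6) 1 := ⟨_, rfl⟩
    have hη0 : 0 < η := by
      rw [hη]
      exact lt_min (by positivity) one_pos
    have hη1 : η ≤ 1 := by rw [hη]; exact min_le_right _ _
    have hη6 : 6 * η ≤ ε := by
      have : η ≤ ε / 6 := by rw [hη]; exact min_le_left _ _
      linarith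
    obtain ⟨N, hN⟩ := Pool.Agent.TH885.NW.all_near hη0
    obtain ⟨N', hN'⟩ := exists_nat_ge (1 / η)
    refine ⟨max N (N' ^ 2), fun n hn A L hL => ?_⟩
    have hn1 : N ≤ n := (le_max_left _ _).trans hn
    have hn2 : N' ^ 2 ≤ n := (le_max_right _ _).trans hn
    have hs : 1 / η ≤ Real.sqrt n := by
      refine hN'.trans ?_
      apply Real.le_sqrt_of_sq_le
      exact_mod_cast hn2
    have hgood : ∀ W : ℕ, ¬ Good n W →
        ∃ d : ℕ, |2 * (d : ℝ) + 3 - Real.sqrt n - 2 * (W : ℝ) / Real.sqrt n| < η := by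
      intro W hW
      by_contra hcon
      push Not at hcon
      apply hW
      intro m hm w hw hsum
      obtain ⟨F, hF, hF'⟩ := hN n hn1 m hm w hw (L := ℂ)
      refine nonSpecial_of ⟨F, hF, fun P hP d => hF' P hP d ?_⟩
      rw [sum_eq hsum]
      exact hcon d
    have hset : {W : ℕ | A ≤ W ∧ W < A + L ∧ ¬ Good n W} =
        ↑((Finset.Ico A (A + L)).filter fun W => ¬ Good n W) := by
      ext W
      simp only [Set.mem_ofPred_eq, Finset.coe_filter, Finset.mem_Ico, and_assoc]
    rw [hset, Set.ncard_coe_finset]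
    have hfin : (((Finset.Ico A (A + L)).filter fun W => ¬ Good n W).card : ℝ) ≤ 6 * η * L :=
      Pool.Agent.H852.NB.count_bad (A := A) hη0 hη1 hs hL
        (fun W hW => Finset.mem_Ico.1 (Finset.mem_filter.1 hW).1)
        (fun W hW => hgood W (Finset.mem_filter.1 hW).2)
    exact hfin.trans (mul_le_mul_of_nonneg_right hη6 (Nat.cast_nonneg L))

end Pool.Agent.Results.MP_d3128a_ag.AllNumbersNearUniform
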