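import Mathlib
import Pool.Agent.TH641.DI.All

set_option autoImplicit false

/-!
# Non-speciality in all degrees for all multiplicity vectors close to a uniform vector

Let `4 ∣ n`, `n ≥ 40` and `2 m ≥ n + 6`. Let `w` be a vector of `n` multiplicities `w i ≤ m + 1`.
Give every point a cost: `0` if `w i = m`, `1` if `w i = m + 1` and `4 (m - w i) - 2` if `w i < m`. If
the total cost plus `2 √n / 3 + 19 / 8` is less than `n / 4`, then for general points the systems of
plane curves of degree `d` with the multiplicities `w` are non-special for EVERY `d`.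
-/

namespace Pool.Agent.Results.MP_d3128a_ag.CloseToUniform

open MvPolynomial

/-- Forms of degree `d` vanishing to order at least `w i` at the points `(P i 0 : P i 1 : 1)`. -/
noncomputable def forms {n : ℕ} (P : Fin n → Fin 2 → ℂ) (d : ℕ) (w : Fin n → ℕ) :
    Submodule ℂ (MvPolynomial (Fin 3) ℂ) :=
  homogeneousSubmodule (Fin 3) ℂ d ⊓
    Submodule.restrictScalars ℂ
      (⨅ i : Fin n, (Ideal.span {X 0 - C (P i 0) * X 2, X 1 - C (P i 1) * X 2} :
        Ideal (MvPolynomial (Fin 3) ℂ)) ^ (w i))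

/-- For general points (one nonempty open set for all degrees) the systems of curves with the
multiplicities `w` are non-special in every degree. -/
def NonSpecial {n : ℕ} (w : Fin n → ℕ) : Prop :=
  ∃ F : MvPolynomial (Fin n × Fin 2) ℂ, F ≠ 0 ∧ ∀ P : Fin n → Fin 2 → ℂ,
    MvPolynomial.eval (fun ij : Fin n × Fin 2 => P ij.1 ij.2) F ≠ 0 →
    ∀ d : ℕ, (Module.finrank ℂ ↥(forms P d w) : ℤ) - 1 =
      max (((d + 2).choose 2 : ℤ) - 1 - ∑ i, ((w i + 1).choose 2 : ℤ)) (-1)

/-- The cost of a point of multiplicity `e ≤ m + 1`. -/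
def cost (m e : ℕ) : ℕ := if e < m then 4 * (m - e) - 2 else if e = m then 0 else 1

theorem result : ∀ n m : ℕ, 4 ∣ n → 40 ≤ n → n + 6 ≤ 2 * m →
    ∀ w : Fin n → ℕ, (∀ i, w i ≤ m + 1) →
      ((∑ i, cost m (w i) : ℕ) : ℝ) + 2 * Real.sqrt n / 3 + 19 / 8 < (n : ℝ) / 4 →
      NonSpecial w := by
  intro n m h4 hn hm w hw hT
  obtain ⟨N, rfl⟩ := h4
  have e0 : ∑ i, cost m (w i) = Pool.Agent.TH641.DI.dist m w := by
    unfold Pool.Agent.TH641.DI.dist
    refine Finset.sum_congr rfl fun i _ => ?_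
    have h := hw i
    unfold cost Pool.Agent.TH641.DI.cost
    split_ifs <;> omega
  obtain ⟨F, hF, hF'⟩ := Pool.Agent.TH641.DI.expDim_dist (N := N) (m := m) (by omega) (by omega) hw (by
    rw [e0] at hT
    push_cast at hT
    linarith)
  refine ⟨F.map (algebraMap ℚ ℂ), Pool.Agent.H932R3.map_ne_zero_of hF, fun P hP d => ?_⟩
  rw [MvPolynomial.eval_map] at hP
  have h1 := hF' (L := ℂ) P hP d
  unfold Pool.Agent.H932R3.ExpDim at h1
  unfold forms
  rw [h1]
  have e : ∑ i, ((w i + 1).choose 2 : ℤ) = ((∑ i, (w i + 1).choose 2 : ℕ) : ℤ) := by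
    push_cast
    rfl
  rw [e]
  omega

end Pool.Agent.Results.MP_d3128a_ag.CloseToUniform
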