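import Mathlib
import Pool.Agent.TH864.DP.Joint

set_option autoImplicit false

/-!
# Exact families on the boundary `d = m₁ + m₂ + m₃`

Let `k + r M = 9`, `M, r ≥ 1`, `b ≤ M + 4`. For all `D` and `m` the linear system of plane curves of degree
`3 D` with `k` general points of multiplicity `D`, `r b` general points of multiplicity `m + 1` and
`r (M + 4 - b)` general points of multiplicity `m` has the expected dimension. If the virtual number of
sections is nonnegative, the same multiplicities are non-special in all degrees `d ≥ 3 D`, otherwise the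
systems of degree `d ≤ 3 D` are empty.
-/

namespace Pool.Agent.Results.MP_d3128a_ag.ExactBoundaryFamilies

theorem result (M r k b : ℕ) (hM : 1 ≤ M) (hr : 1 ≤ r) (hk : k + r * M = 9) (hb : b ≤ M + 4)
    (D m : ℕ) :
    ∃ F : MvPolynomial (Fin (k + r * (M + 4)) × Fin 2) ℂ, F ≠ 0 ∧
      ∀ P : Fin (k + r * (M + 4)) → Fin 2 → ℂ,
        MvPolynomial.eval (fun ij : Fin (k + r * (M + 4)) × Fin 2 => P ij.1 ij.2) F ≠ 0 →
        ∀ d : ℕ,
          (d = 3 * D ∨
            (d ≤ 3 * D ∧ Nat.choose (3 * D + 2) 2 ≤ k * Nat.choose (D + 1) 2 +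
              r * b * Nat.choose (m + 2) 2 + r * (M + 4 - b) * Nat.choose (m + 1) 2) ∨
            (3 * D ≤ d ∧ k * Nat.choose (D + 1) 2 + r * b * Nat.choose (m + 2) 2 +
              r * (M + 4 - b) * Nat.choose (m + 1) 2 ≤ Nat.choose (3 * D + 2) 2)) →
          Module.finrank ℂ
            ↥(MvPolynomial.homogeneousSubmodule (Fin 3) ℂ d ⊓
              Submodule.restrictScalars ℂ
                (⨅ i : Fin (k + r * (M + 4)),
                  (Ideal.span
                    ({MvPolynomial.X 0 - MvPolynomial.C (P i 0) * MvPolynomial.X 2,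
                      MvPolynomial.X 1 - MvPolynomial.C (P i 1) * MvPolynomial.X 2} :
                      Set (MvPolynomial (Fin 3) ℂ))) ^
                    (if (i : ℕ) < k then D else if (i : ℕ) < k + r * b then m + 1 else m)))
          = Nat.choose (d + 2) 2 - (k * Nat.choose (D + 1) 2 + r * b * Nat.choose (m + 2) 2 +
              r * (M + 4 - b) * Nat.choose (m + 1) 2) := by
  have hrb : r * b ≤ r * (M + 4) := Nat.mul_le_mul_left _ hb
  have hab : k + r * b ≤ k + r * (M + 4) := by omega
  obtain ⟨F, hF, hF'⟩ := TH864.DP.expDim_fam (TH864.DP.joint hM hr hk hb D m)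
  refine ⟨F.map (algebraMap ℚ ℂ), H932R3.map_ne_zero_of hF, fun P hP d hd => ?_⟩
  rw [MvPolynomial.eval_map] at hP
  have hS := TH864.DP.sum_wt3 hab D m
  have e : k + r * (M + 4) - k - r * b = r * (M + 4 - b) := by
    rw [Nat.mul_sub]; omega
  rw [e] at hS
  have h1 := hF' P hP d (by
    rw [hS]
    rcases hd with rfl | hd | hd
    · rcases le_total (Nat.choose (3 * D + 2) 2) (k * Nat.choose (D + 1) 2 +
        r * b * Nat.choose (m + 2) 2 + r * (M + 4 - b) * Nat.choose (m + 1) 2) with h2 | h2
      · exact Or.inl ⟨le_rfl, h2⟩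
      · exact Or.inr ⟨le_rfl, h2⟩
    · exact Or.inl hd
    · exact Or.inr hd)
  unfold H932R3.ExpDim at h1
  rw [hS] at h1
  exact h1

end Pool.Agent.Results.MP_d3128a_ag.ExactBoundaryFamilies
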