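import Mathlib
import Pool.Agent.TH718.UG.Near2

set_option autoImplicit false

/-!
# Non-speciality below `√n d = W + 1 - 3 / √n`, and for near-uniform systems with `d² ≤ ∑ w_i²`

Let `T` be a set of `t ≥ 10` of the general points of the complex projective plane. The system of the
curves of degree `d ≥ 1` with multiplicity at least `w i` at the `i`-th point is empty and non-special
(its virtual dimension is negative)
(1) if `√t d < ∑_T w i + 1 - 3 / √t`, for arbitrary multiplicities, if `t ≥ 12` or `3 ∤ d`;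
(2) if the `w i`, `i ∈ T`, are `k` or `k + 1`, `k ≥ 1`, and `d² ≤ ∑_T (w i)²`, but for the two systems
`(4; 2², 1⁸)` and `(5; 2⁵, 1⁵)` for `t = 10`.
-/

namespace Pool.Agent.Results.MP_d3128a_ag.UniformGap

open MvPolynomial

/-- The space of the forms of degree `d` with multiplicity at least `w i` at `(P i 0 : P i 1 : 1)`. -/
noncomputable def forms {n : ℕ} (P : Fin n → Fin 2 → ℂ) (d : ℕ) (w : Fin n → ℕ) :
    Submodule ℂ (MvPolynomial (Fin 3) ℂ) :=
  homogeneousSubmodule (Fin 3) ℂ d ⊓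
    Submodule.restrictScalars ℂ
      (⨅ i : Fin n, (Ideal.span ({X 0 - C (P i 0) * X 2, X 1 - C (P i 1) * X 2} :
        Set (MvPolynomial (Fin 3) ℂ))) ^ (w i))

theorem result (n : ℕ) (w : Fin n → ℕ) (d : ℕ) (hd : 0 < d) (T : Finset (Fin n))
    (hT : 10 ≤ T.card)
    (h : ((12 ≤ T.card ∨ ¬ 3 ∣ d) ∧
        √(T.card : ℝ) * d < (∑ i ∈ T, (w i : ℝ)) + 1 - 3 / √(T.card : ℝ)) ∨
      ∃ k : ℕ, 1 ≤ k ∧ (∀ i ∈ T, w i = k ∨ w i = k + 1) ∧ d ^ 2 ≤ ∑ i ∈ T, w i ^ 2 ∧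
        ¬ (T.card = 10 ∧ k = 1 ∧ (d = 4 ∨ d = 5) ∧ ∑ i ∈ T, w i ^ 2 = d ^ 2)) :
    ∃ F : MvPolynomial (Fin n × Fin 2) ℂ, F ≠ 0 ∧
      ∀ P : Fin n → Fin 2 → ℂ, eval (fun q : Fin n × Fin 2 => P q.1 q.2) F ≠ 0 →
        forms P d w = ⊥ ∧ ((d + 2).choose 2 : ℤ) - 1 - ∑ i, ((w i + 1).choose 2 : ℤ) ≤ -1 := by
  classical
  obtain ⟨t, ht⟩ : ∃ t, T.card = t := ⟨_, rfl⟩
  have ht10 : 10 ≤ t := by omega
  let g : Fin t ↪o Fin n := T.orderEmbOfFin ht
  have hsum : ∀ {M : Type} [AddCommMonoid M] (f : Fin n → M), ∑ i ∈ T, f i = ∑ j : Fin t, f (g j) := by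
    intro M _ f
    rw [← Finset.map_orderEmbOfFin_univ T ht, Finset.sum_map]
    rfl
  have hmem : ∀ j : Fin t, g j ∈ T := fun j => by
    have : g j ∈ Finset.map g.toEmbedding Finset.univ := Finset.mem_map_of_mem _ (Finset.mem_univ j)
    rwa [Finset.map_orderEmbOfFin_univ T ht] at this
  have hV : TH718.UG.Van (fun j => w (g j)) d := by
    rw [ht, hsum, hsum] at h
    rcases h with ⟨h3, h⟩ | ⟨k, hk, hw, h1, h2⟩
    · exact TH718.UG.Van_of_Emp (TH718.UG.Emp_gap' ht10 (Fintype.card_fin t) hd h3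
        (by rw [Nat.cast_sum]; exact h))
    · exact TH718.UG.Van_near_all ht10 hd hk (fun j => hw (g j) (hmem j)) h1 h2
  obtain ⟨F, hF, hF'⟩ := TH718.UG.Van_sub (w := w) g g.injective hV
  refine ⟨F.map (algebraMap ℚ ℂ), fun h0 => hF ?_, fun P hP => ?_⟩
  · exact MvPolynomial.map_injective _ (algebraMap ℚ ℂ).injective (h0.trans (map_zero _).symm)
  · rw [eval_map] at hP
    obtain ⟨h1, h2⟩ := hF' P hP
    refine ⟨h1, ?_⟩
    have h3 : (((d + 2).choose 2 : ℕ) : ℤ) ≤ ((∑ i, (w i + 1).choose 2 : ℕ) : ℤ) := by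
      exact_mod_cast h2
    push_cast at h3
    linarith

end Pool.Agent.Results.MP_d3128a_ag.UniformGap
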